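import Pool.Agent.Helper67.DO.BaseE
import Pool.Agent.Helper67.DO.StmtsW2

/-!
# MP_d07457_gt, module W9 (DIST)
-/

namespace Pool.Agent.Helper67.DO

open scoped BigOperators Real

noncomputable section

theorem w9_all {N : ℕ} : ∀ (m : ℕ) (Φ : Fin m → ℝ → ℝ → ℝ → ℝ → Prop), (∀ i, Loss N (Φ i)) →
    Loss N fun w' h' w h => ∀ i, Φ i w' h' w h := by
  intro m
  induction m with
  | zero =>
    intro Φ _
    exact Loss.of fun _ _ _ _ _ _ _ _ _ i => i.elim0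
  | succ m ih =>
    intro Φ hΦ
    refine (Loss.and (hΦ 0) (ih (fun i => Φ i.succ) fun i => hΦ i.succ)).imp ?_
    intro w' h' w h _ _ _ _ _ hh
    exact Fin.forall_fin_succ.2 hh

/-- composition of a functional with a bounded linear operator -/
theorem w9_fnl {q : ℕ} {U V : Set ℂ} {γ : ((Fin q → ℂ) → ℂ) → ℂ} (hγ : Fnl q U γ)
    (E : ((Fin q → ℂ) → ℂ) → ((Fin q → ℂ) → ℂ)) (hE : ∀ F, BO q V F → BO q U (E F))
    (hb : ∃ C : ℝ, ∀ F, BO q V F → ∀ B : ℝ, (∀ z ∈ PU q V, ‖F z‖ ≤ B) → ∀ z ∈ PU q U, ‖E F z‖ ≤ C * B)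
    (hl : ∀ (F K : (Fin q → ℂ) → ℂ) (c : ℂ), BO q V F → BO q V K → ∀ z ∈ PU q U,
      E (fun x => c * F x + K x) z = c * E F z + E K z) :
    Fnl q V (fun F => γ (E F)) where
  add F K hF hK := by
    show γ (E fun z => F z + K z) = γ (E F) + γ (E K)
    have hFK := hE _ (hF.add hK)
    rw [← hγ.add _ _ (hE F hF) (hE K hK)]
    refine hγ.ext' hFK ((hE F hF).add (hE K hK)) fun z hz => ?_
    have h1 := hl F K 1 hF hK z hz
    simpa using h1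
  smul c F hF := by
    show γ (E fun z => c * F z) = c * γ (E F)
    have h0 := hE _ (BO.zero q V)
    have hcF := hE _ (hF.smul c)
    rw [← hγ.smul c _ (hE F hF)]
    refine hγ.ext' hcF ((hE F hF).smul c) fun z hz => ?_
    have h1 := hl F (fun _ => 0) c hF (BO.zero q V) z hz
    have h2 := hl (fun _ => 0) (fun _ => 0) 1 (BO.zero q V) (BO.zero q V) z hz
    have h3 : E (fun _ => 0) z = 0 := by
      simp only [mul_zero, add_zero, one_mul] at h2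
      exact left_eq_add.mp h2
    simp only [add_zero] at h1
    rw [h1, h3, add_zero]
  bdd := by
    obtain ⟨C, hC⟩ := hb
    obtain ⟨C', hC', H⟩ := hγ.bdd
    refine ⟨C' * |C|, by positivity, fun F hF M hM hM0 => ?_⟩
    have h1 := H (E F) (hE F hF) (|C| * M) (fun z hz => (hC F hF M hM z hz).trans
      (mul_le_mul_of_nonneg_right (le_abs_self C) hM0)) (by positivity)
    calc ‖γ (E F)‖ ≤ C' * (|C| * M) := h1
      _ = C' * |C| * M := by ring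

/-- functionals are continuous -/
theorem w9_lim {q : ℕ} {U : Set ℂ} {γ : ((Fin q → ℂ) → ℂ) → ℂ} (hγ : Fnl q U γ)
    (K : ℕ → (Fin q → ℂ) → ℂ) (K0 : (Fin q → ℂ) → ℂ) (hK : ∀ T, BO q U (K T)) (hK0 : BO q U K0)
    (hlim : ∀ ε : ℝ, 0 < ε → ∃ T0 : ℕ, ∀ T, T0 ≤ T → ∀ z ∈ PU q U, ‖K T z - K0 z‖ ≤ ε) :
    Filter.Tendsto (fun T => γ (K T)) Filter.atTop (nhds (γ K0)) := by
  obtain ⟨C, hC, H⟩ := hγ.bdd
  rw [Metric.tendsto_atTop]
  intro ε hε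
  obtain ⟨T0, hT0⟩ := hlim (ε / (2 * (C + 1))) (by positivity)
  refine ⟨T0, fun T hT => ?_⟩
  rw [dist_eq_norm, ← hγ.sub' (hK T) hK0]
  have h1 := H _ ((hK T).sub hK0) (ε / (2 * (C + 1))) (hT0 T hT) (by positivity)
  refine h1.trans_lt ?_
  have h2 : C * (ε / (2 * (C + 1))) = (C / (C + 1)) * (ε / 2) := by
    field_simp
  rw [h2]
  have h3 : C / (C + 1) ≤ 1 := by
    rw [div_le_one (by positivity)]
    linarith
  calc C / (C + 1) * (ε / 2) ≤ 1 * (ε / 2) := mul_le_mul_of_nonneg_right h3 (by positivity)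
    _ < ε := by linarith

theorem w9_set {i m : ℤ} (h : i ≠ m) : (({m} ∪ {i}) \ {m} : Set ℤ) = {i} := by
  ext x
  simp only [Set.mem_sdiff, Set.mem_union, Set.mem_singleton_iff]
  constructor
  · rintro ⟨h1 | h1, h2⟩
    · exact absurd h1 h2
    · exact h1
  · intro h1
    exact ⟨Or.inr h1, fun h2 => h (h1.symm.trans h2)⟩

theorem st_W9 (h5 : ST_W5) (h5l : ST_W5l) (h6 : ST_W6) (h7 : ST_W7) (h8 : ST_W8) : ST_W9 := by
  intro N m q P G hD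
  have hmN : m < N := lt_of_lt_of_le (Nat.lt_succ_self m) hD.le
  have hiN : ∀ i : Fin m, (i : ℕ) < N := fun i => i.2.trans hmN
  have hIm : ∀ j ∈ ({(m : ℤ)} : Set ℤ), 0 ≤ j ∧ j < ((m + 1 : ℕ) : ℤ) := by
    intro j hj
    rw [Set.mem_singleton_iff] at hj
    rw [hj]
    push_cast
    omega
  have hIi : ∀ i : Fin m, ∀ j ∈ ({((i : ℕ) : ℤ)} : Set ℤ), 0 ≤ j ∧ j < ((m + 1 : ℕ) : ℤ) := by
    intro i j hj
    rw [Set.mem_singleton_iff] at hj
    rw [hj]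
    have := i.2
    push_cast
    omega
  have hne : ({(m : ℤ)} : Set ℤ).Nonempty := ⟨_, rfl⟩
  have A1 := w9_all m _ fun i : Fin m => h5 N (m + 1) q P G {(m : ℤ)} ⟨i, hiN i⟩ hD
    (i.2.trans (Nat.lt_succ_self m)) hIm (Or.inl hne)
  have A1l := w9_all m _ fun i : Fin m => h5l N (m + 1) q P G {(m : ℤ)} ⟨i, hiN i⟩ hD
    (i.2.trans (Nat.lt_succ_self m)) hIm (Or.inl hne)
  have A2 := w9_all m _ fun i : Fin m => h5 N (m + 1) q P G {((i : ℕ) : ℤ)} ⟨m, hmN⟩ hD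
    (Nat.lt_succ_self m) (hIi i) (Or.inl ⟨_, rfl⟩)
  have A2l := w9_all m _ fun i : Fin m => h5l N (m + 1) q P G {((i : ℕ) : ℤ)} ⟨m, hmN⟩ hD
    (Nat.lt_succ_self m) (hIi i) (Or.inl ⟨_, rfl⟩)
  have A3 := h5 N (m + 1) q P G {(m : ℤ)} ⟨m, hmN⟩ hD (Nat.lt_succ_self m) hIm (Or.inl hne)
  have A4 := h6 N (m + 1) q P G {(m : ℤ)} hD hIm (Or.inl hne)
  have A5 := w9_all m _ fun i : Fin m => h7 N (m + 1) q P G {(m : ℤ)} ⟨i, hiN i⟩ ⟨i, hiN i⟩ hD
    (i.2.trans (Nat.lt_succ_self m)) (i.2.trans (Nat.lt_succ_self m)) hIm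
  have A6 := w9_all m _ fun i : Fin m => h7 N (m + 1) q P G {(m : ℤ)} ⟨i, hiN i⟩ ⟨m, hmN⟩ hD
    (i.2.trans (Nat.lt_succ_self m)) (Nat.lt_succ_self m) hIm
  have A7 := h8 N (m + 1) q P G ⟨m, hmN⟩ hD (Nat.lt_succ_self m)
  have A0 : Loss N (fun _ _ _ _ => True) := Loss.of fun _ _ _ _ _ _ _ _ _ => trivial
  refine Loss.comp A0
    (((((A1.and A1l).and (A2.and A2l)).and (A3.and A4)).and (A5.and A6)).and A7) ?_
  intro w' h' w1 h1 w h hw'0 hw'1 hw1 hwN hh0 hh1 hh' _ HH α hα hX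
  obtain ⟨⟨⟨⟨⟨B1, B1l⟩, ⟨B2, B2l⟩⟩, ⟨B3, B4⟩⟩, ⟨B5, B6⟩⟩, B7⟩ := HH
  clear A0 A1 A1l A2 A2l A3 A4 A5 A6 A7
  obtain ⟨β, hβ, hαβ⟩ := hX
  obtain ⟨r, hr⟩ : ∃ r, r = (w' + w1) / 2 := ⟨_, rfl⟩
  obtain ⟨σ, hσ⟩ : ∃ σ, σ = (h' + h1) / 2 := ⟨_, rfl⟩
  simp only [← hr, ← hσ] at B1 B1l B2 B2l B3 B4 B5 B6 B7
  have hsub : ∀ Q : Set ℤ, US N Q G w h ⊆ US N Q G w1 h1 := fun Q =>
    US_mono le_rfl le_rfl hw1.le hh1.le
  -- the new functionals
  refine ⟨fun i F => if hi : i < m then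
      α (eop N (P ∪ pcl N ({(m : ℤ)} ∪ {(i : ℤ)})) G r σ (m + 1) ⟨i, hi.trans hmN⟩ q F) +
      β i (eop N (P ∪ pcl N ({(i : ℤ)} ∪ {(m : ℤ)})) G r σ (m + 1) ⟨m, hmN⟩ q F) else 0, ?_, ?_⟩
  · intro i hi
    have hset : (P ∪ pcl N {(m : ℤ)}) ∪ pcl N {(i : ℤ)} = P ∪ pcl N ({(m : ℤ)} ∪ {(i : ℤ)}) := by
      rw [pcl_union, Set.union_assoc]
    simp only [hi, dif_pos]
    rw [hset]
    apply Fnl.addF
    · refine w9_fnl (hα.mono' (hsub _)) (fun F => eop N (P ∪ pcl N ({(m : ℤ)} ∪ {(i : ℤ)})) G r σ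
        (m + 1) ⟨i, hi.trans hmN⟩ q F) (B1 ⟨i, hi⟩).1 (B1 ⟨i, hi⟩).2 (B1l ⟨i, hi⟩)
    · have hset2 : P ∪ pcl N ({(m : ℤ)} ∪ {(i : ℤ)}) = P ∪ pcl N ({(i : ℤ)} ∪ {(m : ℤ)}) := by
        rw [Set.union_comm {(m : ℤ)}]
      rw [hset2]
      refine w9_fnl ((hβ i hi).mono' (hsub _)) (fun F => eop N (P ∪ pcl N ({(i : ℤ)} ∪ {(m : ℤ)})) G r σ
        (m + 1) ⟨m, hmN⟩ q F) (B2 ⟨i, hi⟩).1 (B2 ⟨i, hi⟩).2 (B2l ⟨i, hi⟩)
  · intro w2 h2 hw20 hw2 hh2 F hF2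
    have hF : BO q (US N (P ∪ pcl N {(m : ℤ)}) G w' h') F :=
      hF2.mono (US_mono le_rfl le_rfl hw2.le hh2.le)
    have hFi : ∀ i : ℕ, BO q (US N (P ∪ pcl N ({(m : ℤ)} ∪ {(i : ℤ)})) G w' h') F := fun i =>
      hF.mono (US_mono (Set.union_subset_union_right _ (pcl_mono N Set.subset_union_left)) le_rfl
        le_rfl le_rfl)
    -- operators
    obtain ⟨Em, hEm⟩ : ∃ Em : (Fin q → ℂ) → ℂ,
      Em = eop N (P ∪ pcl N {(m : ℤ)}) G r σ (m + 1) ⟨m, hmN⟩ q F := ⟨_, rfl⟩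
    have hEmB : BO q (US N (P ∪ pcl N {(m : ℤ)}) G w1 h1) Em := by
      have h3 := B3.1 F
      simp only [Set.union_self] at h3
      rw [hEm]
      exact h3 hF
    have hEiB : ∀ i (hi : i < m), BO q (US N (P ∪ pcl N {(m : ℤ)}) G w1 h1)
        (eop N (P ∪ pcl N ({(m : ℤ)} ∪ {(i : ℤ)})) G r σ (m + 1) ⟨i, hi.trans hmN⟩ q F) :=
      fun i hi => (B1 ⟨i, hi⟩).1 F (hFi i)
    have hEoB : ∀ i (hi : i < m), BO q (US N (P ∪ pcl N {(i : ℤ)}) G w1 h1)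
        (eop N (P ∪ pcl N ({(i : ℤ)} ∪ {(m : ℤ)})) G r σ (m + 1) ⟨m, hmN⟩ q F) := by
      intro i hi
      apply (B2 ⟨i, hi⟩).1 F
      show BO q (US N (P ∪ pcl N ({(i : ℤ)} ∪ {(m : ℤ)})) G w' h') F
      rw [Set.union_comm {(i : ℤ)}]
      exact hFi i
    -- decomposition of F
    have hdec : ∀ z ∈ PU q (US N (P ∪ pcl N {(m : ℤ)}) G w1 h1),
        F z = (∑ i : Fin m, eop N (P ∪ pcl N ({(m : ℤ)} ∪ {((i : ℕ) : ℤ)})) G r σ (m + 1)
          ⟨i, hiN i⟩ q F z) + Em z := by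
      intro z hz
      rw [← B4 F hF z hz]
      have e1 : ∀ i : Fin m, eop N (P ∪ pcl N ({(m : ℤ)} ∪ {((i : ℕ) : ℤ)})) G r σ (m + 1)
          ⟨i, hiN i⟩ q F z = eop N (P ∪ pcl N {(m : ℤ)}) G r σ (m + 1) ⟨i, hiN i⟩ q F z := by
        intro i
        exact ((B5 i F hF).1 trivial (Or.inl hne) z hz).symm
      rw [Finset.sum_congr rfl fun i _ => e1 i, hEm]
      have e2 : ∀ g : Fin N → ℂ, ∑ k : Fin N, (if (k : ℕ) < m + 1 then g k else 0) =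
          (∑ i : Fin m, g ⟨i, hiN i⟩) + g ⟨m, hmN⟩ := by
        intro g
        have e3 : ∑ k : Fin N, (if (k : ℕ) < m + 1 then g k else 0) =
            ∑ i : Fin (m + 1), g ⟨i, lt_of_lt_of_le i.2 hD.le⟩ := by
          rw [← Finset.sum_filter]
          symm
          refine Finset.sum_bij (fun (i : Fin (m + 1)) _ => (⟨i, lt_of_lt_of_le i.2 hD.le⟩ : Fin N))
            ?_ ?_ ?_ ?_
          · intro i _
            exact Finset.mem_filter.2 ⟨Finset.mem_univ _, i.2⟩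
          · intro i _ j _ hij
            have := congrArg Fin.val hij
            exact Fin.ext this
          · intro k hk
            simp only [Finset.mem_filter, Finset.mem_univ, true_and] at hk
            exact ⟨⟨k, hk⟩, Finset.mem_univ _, rfl⟩
          · intro i _
            rfl
        rw [e3, Fin.sum_univ_castSucc]
        rfl
      exact e2 fun k => eop N (P ∪ pcl N {(m : ℤ)}) G r σ (m + 1) k q F z
    have hαF : α F = (∑ i : Fin m, α (eop N (P ∪ pcl N ({(m : ℤ)} ∪ {((i : ℕ) : ℤ)})) G r σ (m + 1)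
          ⟨i, hiN i⟩ q F)) + α Em := by
      have hsumB : BO q (US N (P ∪ pcl N {(m : ℤ)}) G w h) (fun z => ∑ i : Fin m,
          eop N (P ∪ pcl N ({(m : ℤ)} ∪ {((i : ℕ) : ℤ)})) G r σ (m + 1) ⟨i, hiN i⟩ q F z) :=
        BO.sum Finset.univ _ fun i _ => (hEiB i i.2).mono (hsub _)
      have hFB : BO q (US N (P ∪ pcl N {(m : ℤ)}) G w h) F :=
        hF.mono (US_mono le_rfl le_rfl (hw'1.trans hw1).le (hh1.trans hh').le)
      rw [← hα.sum' Finset.univ _ fun (i : Fin m) _ => (hEiB i i.2).mono (hsub _),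
        ← hα.add _ _ hsumB (hEmB.mono (hsub _))]
      exact hα.ext' hFB (hsumB.add (hEmB.mono (hsub _))) fun z hz =>
        hdec z (PU_mono (hsub _) hz)
    -- approximation
    obtain ⟨FT, hFT, happ⟩ := B7 F hF
    have hFTi : ∀ T, ∀ i : ℕ, BO q (US N (P ∪ pcl N {(i : ℤ)}) G w h) (FT T) := fun T i =>
      (hFT T).mono (US_mono Set.subset_union_left le_rfl hw1.le hh1.le)
    have hlim1 : Filter.Tendsto (fun T => α (FT T)) Filter.atTop (nhds (α Em)) := by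
      refine w9_lim hα FT Em (fun T => hFTi T m) (hEmB.mono (hsub _)) ?_
      intro ε hε
      obtain ⟨T0, hT0⟩ := happ m (Nat.lt_succ_self m) ε hε
      refine ⟨T0, fun T hT z hz => ?_⟩
      rw [hEm]
      exact hT0 T hT z (PU_mono (hsub _) hz)
    have hlim2 : ∀ i : Fin m, Filter.Tendsto (fun T => β i (FT T)) Filter.atTop
        (nhds (β i (eop N (P ∪ pcl N ({((i : ℕ) : ℤ)} ∪ {(m : ℤ)})) G r σ (m + 1) ⟨m, hmN⟩ q F))) := by
      intro i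
      refine w9_lim (hβ i i.2) FT _ (fun T => hFTi T i) ((hEoB i i.2).mono (hsub _)) ?_
      intro ε hε
      obtain ⟨T0, hT0⟩ := happ i (i.2.trans (Nat.lt_succ_self m)) ε hε
      refine ⟨T0, fun T hT z hz => ?_⟩
      have hz1 : z ∈ PU q (US N (P ∪ pcl N {((i : ℕ) : ℤ)}) G w1 h1) := PU_mono (hsub _) hz
      have hneim : ((i : ℕ) : ℤ) ≠ (m : ℤ) := by
        have := i.2
        omega
      have h61 := (B6 i F hF).2 (by
        intro hki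
        have := congrArg Fin.val hki
        have h3 : m = (i : ℕ) := this
        have := i.2
        omega)
      have h62 : eop N (P ∪ pcl N {(m : ℤ)}) G r σ (m + 1) ⟨m, hmN⟩ q F z =
          eop N (P ∪ pcl N ({(m : ℤ)} ∪ {((i : ℕ) : ℤ)})) G r σ (m + 1) ⟨m, hmN⟩ q F z := by
        apply h61 z
        show z ∈ PU q (US N (P ∪ pcl N (({(m : ℤ)} ∪ {((i : ℕ) : ℤ)}) \ {(m : ℤ)})) G w1 h1)
        rw [w9_set hneim]
        exact hz1
      rw [Set.union_comm {((i : ℕ) : ℤ)}, ← h62]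
      exact hT0 T hT z hz1
    have hαFT : ∀ T, α (FT T) = ∑ i : Fin m, β i (FT T) := by
      intro T
      rw [hαβ w1 h1 (hw'0.trans hw'1) hw1 hh1 (FT T) (hFT T), Finset.sum_range]
    have hαEm : α Em = ∑ i : Fin m, β i (eop N (P ∪ pcl N ({((i : ℕ) : ℤ)} ∪ {(m : ℤ)})) G r σ
        (m + 1) ⟨m, hmN⟩ q F) := by
      have hl := tendsto_finsetSum Finset.univ fun i (_ : i ∈ Finset.univ) => hlim2 i
      have hl' : Filter.Tendsto (fun T => α (FT T)) Filter.atTop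
          (nhds (∑ i : Fin m, β i (eop N (P ∪ pcl N ({((i : ℕ) : ℤ)} ∪ {(m : ℤ)})) G r σ
            (m + 1) ⟨m, hmN⟩ q F))) := by
        refine hl.congr fun T => ?_
        exact (hαFT T).symm
      exact tendsto_nhds_unique hlim1 hl'
    rw [hαF, hαEm, ← Finset.sum_add_distrib, Finset.sum_range]
    refine Finset.sum_congr rfl fun i _ => ?_
    simp only [i.2, dif_pos]

end

end Pool.Agent.Helper67.DO
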